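import Pool.Agent.Helper96.TF.Defs

/-! # Module S: changes of variables and a priori bounds for the Thomas-Fermi energy -/

set_option autoImplicit false

open MeasureTheory
open scoped Pointwise

namespace Pool.Agent.Helper96.TF

noncomputable section

/-! ## The truncated kernel -/

/-- `|x|^{-5/2}` inside the unit ball -/
def k1 (x : X) : ℝ := if ‖x‖ < 1 then (‖x‖⁻¹) ^ (5 / 2 : ℝ) else 0

theorem k1_nonneg (x : X) : 0 ≤ k1 x := by
  unfold k1; split_ifs <;> positivity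

theorem k1_integrable : Integrable k1 := by
  have h := (integrable_fun_norm_addHaar (volume : Measure X)
    (f := fun y : ℝ => if y < 1 then (y⁻¹) ^ (5 / 2 : ℝ) else 0)).2 ?_
  · exact h
  · have hfr : Module.finrank ℝ X = 3 := by simp
    rw [hfr]
    have h1 : IntegrableOn (fun x : ℝ => x ^ (-(1 / 2) : ℝ)) (Set.Ioo 0 1) :=
      (intervalIntegral.integrableOn_Ioo_rpow_iff zero_lt_one).2 (by norm_num)
    have h2 : IntegrableOn (fun y : ℝ => y ^ (3 - 1) • (if y < 1 then (y⁻¹) ^ (5 / 2 : ℝ) else 0))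
        (Set.Ioo 0 1) := by
      refine h1.congr_fun ?_ measurableSet_Ioo
      intro y hy
      simp only
      rw [if_pos hy.2, smul_eq_mul, Real.inv_rpow hy.1.le, ← Real.rpow_neg hy.1.le,
        ← Real.rpow_natCast, ← Real.rpow_add hy.1]
      norm_num
    have h3 : IntegrableOn (fun y : ℝ => y ^ (3 - 1) • (if y < 1 then (y⁻¹) ^ (5 / 2 : ℝ) else 0))
        (Set.Ici 1) := by
      refine (integrableOn_zero : IntegrableOn (fun _ : ℝ => (0 : ℝ)) (Set.Ici 1)).congr_fun ?_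
        measurableSet_Ici
      intro y hy
      simp only
      rw [if_neg (not_lt.2 hy), smul_zero]
    have h4 : Set.Ioi (0 : ℝ) = Set.Ioo 0 1 ∪ Set.Ici 1 := by
      ext y
      simp only [Set.mem_Ioi, Set.mem_union, Set.mem_Ioo, Set.mem_Ici]
      constructor
      · intro h
        rcases lt_or_ge y 1 with h' | h'
        · exact Or.inl ⟨h, h'⟩
        · exact Or.inr h'
      · rintro (h | h)
        · exact h.1
        · linarith
    rw [h4]
    exact h2.union h3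

theorem k1_comp_integrable (c : X) : Integrable (fun x => k1 (x - c)) := k1_integrable.comp_sub_right c

theorem integral_k1_comp (c : X) : ∫ x, k1 (x - c) = ∫ x, k1 x := integral_sub_right_eq_self _ c

/-! ## Young -/

theorem young {δ : ℝ} (hδ : 0 < δ) : ∃ C : ℝ, 0 ≤ C ∧ ∀ a b : ℝ, 0 ≤ a → 0 ≤ b →
    a * b ≤ δ * a ^ (5 / 3 : ℝ) + C * b ^ (5 / 2 : ℝ) := by
  set l : ℝ := δ ^ (3 / 5 : ℝ) with hl
  have hlpos : 0 < l := Real.rpow_pos_of_pos hδ _
  have hl53 : l ^ (5 / 3 : ℝ) = δ := by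
    rw [hl, ← Real.rpow_mul hδ.le]; norm_num
  refine ⟨(l⁻¹) ^ (5 / 2 : ℝ), by positivity, fun a b ha hb => ?_⟩
  have h := Real.young_inequality_of_nonneg (a := l * a) (b := l⁻¹ * b) (p := 5 / 3) (q := 5 / 2)
    (by positivity) (by positivity) (by constructor <;> norm_num)
  have e1 : l * a * (l⁻¹ * b) = a * b := by field_simp
  rw [e1, Real.mul_rpow hlpos.le ha, Real.mul_rpow (by positivity) hb, hl53] at h
  have h1 : 0 ≤ δ * a ^ (5 / 3 : ℝ) := by positivity
  have h2 : 0 ≤ (l⁻¹) ^ (5 / 2 : ℝ) * b ^ (5 / 2 : ℝ) := by positivity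
  refine h.trans ?_
  have e2 : δ * a ^ (5 / 3 : ℝ) / (5 / 3) ≤ δ * a ^ (5 / 3 : ℝ) := by
    rw [div_le_iff₀ (by norm_num)]; linarith
  have e3 : (l⁻¹) ^ (5 / 2 : ℝ) * b ^ (5 / 2 : ℝ) / (5 / 2) ≤ (l⁻¹) ^ (5 / 2 : ℝ) * b ^ (5 / 2 : ℝ) := by
    rw [div_le_iff₀ (by norm_num)]; linarith
  linarith

/-- pointwise bound of the attraction -/
theorem attr_le {δ C : ℝ} (h : ∀ a b : ℝ, 0 ≤ a → 0 ≤ b →
    a * b ≤ δ * a ^ (5 / 3 : ℝ) + C * b ^ (5 / 2 : ℝ)) (hδ : 0 ≤ δ) (hC : 0 ≤ C) {r z : ℝ}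
    (hr : 0 ≤ r) (hz : 0 ≤ z) (x : X) :
    z * (r / ‖x‖) ≤ δ * r ^ (5 / 3 : ℝ) + C * z ^ (5 / 2 : ℝ) * k1 x + z * r := by
  by_cases hx : ‖x‖ < 1
  · have h1 := h r (z * ‖x‖⁻¹) hr (by positivity)
    rw [Real.mul_rpow hz (by positivity)] at h1
    have h2 : k1 x = (‖x‖⁻¹) ^ (5 / 2 : ℝ) := by unfold k1; rw [if_pos hx]
    rw [h2]
    have h3 : 0 ≤ z * r := mul_nonneg hz hr
    calc z * (r / ‖x‖) = r * (z * ‖x‖⁻¹) := by rw [div_eq_mul_inv]; ring
      _ ≤ _ := h1
      _ ≤ _ := by linarith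
  · have hx' : 1 ≤ ‖x‖ := not_lt.1 hx
    have h1 : r / ‖x‖ ≤ r := div_le_self hr hx'
    have h2 : 0 ≤ δ * r ^ (5 / 3 : ℝ) := by positivity
    have h3 : 0 ≤ C * z ^ (5 / 2 : ℝ) * k1 x := mul_nonneg (by positivity) (k1_nonneg x)
    have h4 := mul_le_mul_of_nonneg_left h1 hz
    linarith

/-! ## Integrability -/

section Int

variable {ρ : X → ℝ} (hm : Measurable ρ) (h0 : ∀ x, 0 ≤ ρ x) (hi : Integrable ρ)
  (h53 : Integrable (fun x => ρ x ^ (5 / 3 : ℝ)))

include hm h0 hi h53 in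
/-- integrability of `ρ / |x - c|` -/
theorem V_integrable (c : X) : Integrable (fun x => ρ x / ‖x - c‖) := by
  obtain ⟨C, hC, hY⟩ := young (δ := 1) one_pos
  have hb : Integrable (fun x => 1 * ρ x ^ (5 / 3 : ℝ) + C * (1 : ℝ) ^ (5 / 2 : ℝ) * k1 (x - c) + 1 * ρ x) :=
    ((h53.const_mul 1).add ((k1_comp_integrable c).const_mul _)).add (hi.const_mul 1)
  refine hb.mono' ?_ (Filter.Eventually.of_forall fun x => ?_)
  · exact (hm.div (by fun_prop)).aestronglyMeasurable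
  · rw [Real.norm_of_nonneg (div_nonneg (h0 x) (norm_nonneg _))]
    have := attr_le hY zero_le_one hC (h0 x) zero_le_one (x - c)
    rw [one_mul] at this
    exact this

include hm h0 hi h53 in
theorem V_integrable' (c : X) : Integrable (fun y => ρ y / ‖c - y‖) := by
  have := V_integrable hm h0 hi h53 c
  refine this.congr (Filter.Eventually.of_forall fun y => ?_)
  simp only
  rw [norm_sub_rev]

include hm h0 hi h53 in
/-- the potential of `ρ` is bounded -/
theorem potential_bound : ∃ C : ℝ, 0 ≤ C ∧ ∀ x : X, (∫ y, ρ y / ‖x - y‖) ≤ C := by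
  obtain ⟨C, hC, hY⟩ := young (δ := 1) one_pos
  refine ⟨(∫ x, 1 * ρ x ^ (5 / 3 : ℝ)) + (∫ x, C * (1 : ℝ) ^ (5 / 2 : ℝ) * k1 x) + ∫ x, 1 * ρ x, ?_,
    fun c => ?_⟩
  · have h1 : 0 ≤ ∫ x, 1 * ρ x ^ (5 / 3 : ℝ) :=
      integral_nonneg fun x => by have := h0 x; positivity
    have h2 : 0 ≤ ∫ x, C * (1 : ℝ) ^ (5 / 2 : ℝ) * k1 x :=
      integral_nonneg fun x => mul_nonneg (by positivity) (k1_nonneg x)
    have h3 : 0 ≤ ∫ x, 1 * ρ x := integral_nonneg fun x => by have := h0 x; positivity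
    linarith
  · have i1 : Integrable (fun x => 1 * ρ x ^ (5 / 3 : ℝ)) := h53.const_mul 1
    have i2 : Integrable (fun x => C * (1 : ℝ) ^ (5 / 2 : ℝ) * k1 (x - c)) :=
      (k1_comp_integrable c).const_mul _
    have i3 : Integrable (fun x => 1 * ρ x) := hi.const_mul 1
    have e : ∫ x, C * (1 : ℝ) ^ (5 / 2 : ℝ) * k1 x = ∫ x, C * (1 : ℝ) ^ (5 / 2 : ℝ) * k1 (x - c) := by
      rw [integral_const_mul, integral_const_mul, integral_k1_comp]
    have i12 : Integrable (fun x => 1 * ρ x ^ (5 / 3 : ℝ) + C * (1 : ℝ) ^ (5 / 2 : ℝ) * k1 (x - c)) :=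
      i1.add i2
    rw [e, ← integral_add i1 i2, ← integral_add i12 i3]
    apply integral_mono (V_integrable' hm h0 hi h53 c) (i12.add i3)
    intro y
    have := attr_le hY zero_le_one hC (h0 y) zero_le_one (y - c)
    rw [one_mul, norm_sub_rev] at this
    exact this

include hm h0 hi h53 in
/-- the Coulomb energy converges absolutely -/
theorem coulomb_integrable :
    Integrable (fun p : X × X => ρ p.1 * ρ p.2 / ‖p.1 - p.2‖) (volume.prod volume) := by
  have hmeas : Measurable (fun p : X × X => ρ p.1 * ρ p.2 / ‖p.1 - p.2‖) :=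
    ((hm.comp measurable_fst).mul (hm.comp measurable_snd)).div
      (measurable_fst.sub measurable_snd).norm
  rw [integrable_prod_iff hmeas.aestronglyMeasurable]
  obtain ⟨C, hC, hb⟩ := potential_bound hm h0 hi h53
  have e : ∀ x y : X, ρ x * ρ y / ‖x - y‖ = ρ x * (ρ y / ‖x - y‖) := fun x y => mul_div_assoc _ _ _
  refine ⟨Filter.Eventually.of_forall fun x => ?_, ?_⟩
  · simp only [e]
    exact (V_integrable' hm h0 hi h53 x).const_mul _
  · have hn : ∀ x : X, (∫ y, ‖ρ x * ρ y / ‖x - y‖‖) = ρ x * ∫ y, ρ y / ‖x - y‖ := by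
      intro x
      rw [← integral_const_mul]
      congr 1
      funext y
      rw [Real.norm_of_nonneg (div_nonneg (mul_nonneg (h0 x) (h0 y)) (norm_nonneg _)), e]
    have hmp : AEStronglyMeasurable (fun x => ∫ y, ‖ρ x * ρ y / ‖x - y‖‖) volume :=
      (hmeas.aestronglyMeasurable (μ := volume.prod volume)).norm.integral_prod_right'
    refine (hi.mul_const C).mono' hmp (Filter.Eventually.of_forall fun x => ?_)
    have hp : 0 ≤ ∫ y, ρ y / ‖x - y‖ := integral_nonneg fun y => div_nonneg (h0 y) (norm_nonneg _)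
    simp only
    rw [hn x, Real.norm_of_nonneg (mul_nonneg (h0 x) hp)]
    exact mul_le_mul_of_nonneg_left (hb x) (h0 x)

end Int

theorem Dself_nonneg {ρ : X → ℝ} (h0 : ∀ x, 0 ≤ ρ x) : 0 ≤ Dself ρ := by
  unfold Dself
  have : 0 ≤ ∫ x, ∫ y, ρ x * ρ y / ‖x - y‖ :=
    integral_nonneg fun x => integral_nonneg fun y =>
      div_nonneg (mul_nonneg (h0 x) (h0 y)) (norm_nonneg _)
  positivity

/-! ## A priori bounds -/

/-- uniform lower bound of kinetic energy minus attraction -/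
theorem kin_attr_lower {ι : Type} [Fintype ι] {γ : ℝ} (hγ : 0 < γ) (Z : ℝ) (hZ : 0 ≤ Z) :
    ∃ C : ℝ, 0 ≤ C ∧ ∀ z : ι → ℝ, (∀ i, 0 ≤ z i ∧ z i ≤ Z) → ∀ (R : ι → X) (ρ : X → ℝ),
      Adm (∑ i, z i) ρ →
      -C ≤ (3 / 5) * γ * (∫ x, ρ x ^ (5 / 3 : ℝ)) - (∫ x, Vp z R x * ρ x) := by
  set N : ℝ := (Fintype.card ι : ℝ) with hN
  have hNn : 0 ≤ N := by positivity
  set δ : ℝ := (3 / 5) * γ / (N + 1) with hδ
  have hδpos : 0 < δ := by positivity
  obtain ⟨C, hC, hY⟩ := young hδpos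
  set K : ℝ := ∫ x, k1 x with hK
  have hKn : 0 ≤ K := integral_nonneg k1_nonneg
  refine ⟨N * (C * Z ^ (5 / 2 : ℝ) * K + Z * (N * Z)), by positivity, ?_⟩
  intro z hz R ρ ⟨hm, h0, hi, h53, hmass⟩
  have hA : 0 ≤ ∫ x, ρ x ^ (5 / 3 : ℝ) := integral_nonneg fun x => by have := h0 x; positivity
  have hρ : 0 ≤ ∫ x, ρ x := integral_nonneg h0
  have hsum : ∑ i, z i ≤ N * Z := by
    calc ∑ i, z i ≤ ∑ _i : ι, Z := Finset.sum_le_sum fun i _ => (hz i).2
      _ = N * Z := by rw [Finset.sum_const, nsmul_eq_mul, hN, Finset.card_univ]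
  have hint : ∀ i, Integrable (fun x => z i * (ρ x / ‖x - R i‖)) := fun i =>
    (V_integrable hm h0 hi h53 (R i)).const_mul _
  have e1 : ∫ x, Vp z R x * ρ x = ∑ i, ∫ x, z i * (ρ x / ‖x - R i‖) := by
    rw [← integral_finsetSum _ fun i _ => hint i]
    congr 1
    funext x
    unfold Vp
    rw [Finset.sum_mul]
    exact Finset.sum_congr rfl fun i _ => by ring
  have e2 : ∀ i, ∫ x, z i * (ρ x / ‖x - R i‖) ≤
      δ * (∫ x, ρ x ^ (5 / 3 : ℝ)) + (C * Z ^ (5 / 2 : ℝ) * K + Z * (N * Z)) := by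
    intro i
    have hz0 := (hz i).1
    have hz1 := (hz i).2
    have i1 : Integrable (fun x => δ * ρ x ^ (5 / 3 : ℝ)) := h53.const_mul _
    have i2 : Integrable (fun x => C * (z i) ^ (5 / 2 : ℝ) * k1 (x - R i)) :=
      (k1_comp_integrable _).const_mul _
    have i3 : Integrable (fun x => z i * ρ x) := hi.const_mul _
    have h1 : ∫ x, z i * (ρ x / ‖x - R i‖) ≤
        ∫ x, (δ * ρ x ^ (5 / 3 : ℝ) + C * (z i) ^ (5 / 2 : ℝ) * k1 (x - R i) + z i * ρ x) := by
      apply integral_mono (hint i) ((i1.add i2).add i3)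
      intro x
      exact attr_le hY hδpos.le hC (h0 x) hz0 (x - R i)
    have i12 : Integrable (fun x => δ * ρ x ^ (5 / 3 : ℝ) + C * (z i) ^ (5 / 2 : ℝ) * k1 (x - R i)) :=
      i1.add i2
    rw [integral_add i12 i3, integral_add i1 i2, integral_const_mul δ,
      integral_const_mul (C * (z i) ^ (5 / 2 : ℝ)), integral_const_mul (z i) ρ,
      integral_k1_comp, hmass] at h1
    have h2 : (z i) ^ (5 / 2 : ℝ) ≤ Z ^ (5 / 2 : ℝ) := Real.rpow_le_rpow hz0 hz1 (by norm_num)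
    have h3 : C * (z i) ^ (5 / 2 : ℝ) * K ≤ C * Z ^ (5 / 2 : ℝ) * K := by gcongr
    have h4 : z i * ∑ i, z i ≤ Z * (N * Z) :=
      mul_le_mul hz1 hsum (Finset.sum_nonneg fun j _ => (hz j).1) hZ
    linarith
  have e3 : ∑ i, ∫ x, z i * (ρ x / ‖x - R i‖) ≤
      N * (δ * (∫ x, ρ x ^ (5 / 3 : ℝ)) + (C * Z ^ (5 / 2 : ℝ) * K + Z * (N * Z))) := by
    calc _ ≤ ∑ _i : ι, (δ * (∫ x, ρ x ^ (5 / 3 : ℝ)) + (C * Z ^ (5 / 2 : ℝ) * K + Z * (N * Z))) :=
          Finset.sum_le_sum fun i _ => e2 i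
      _ = _ := by rw [Finset.sum_const, nsmul_eq_mul, hN, Finset.card_univ]
  have e4 : N * δ ≤ (3 / 5) * γ := by
    rw [hδ, mul_div_assoc', div_le_iff₀ (by positivity)]
    nlinarith
  have e5 : N * (δ * (∫ x, ρ x ^ (5 / 3 : ℝ))) ≤ (3 / 5) * γ * (∫ x, ρ x ^ (5 / 3 : ℝ)) := by
    rw [← mul_assoc]
    exact mul_le_mul_of_nonneg_right e4 hA
  rw [e1]
  linarith

theorem Urep_nonneg {ι : Type} [Fintype ι] {z : ι → ℝ} (hz : ∀ i, 0 ≤ z i) (R : ι → X) :
    0 ≤ Urep z R := by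
  classical
  unfold Urep
  apply mul_nonneg (by norm_num)
  refine Finset.sum_nonneg fun i _ => Finset.sum_nonneg fun j _ => ?_
  split_ifs
  · exact le_rfl
  · exact div_nonneg (mul_nonneg (hz i) (hz j)) (norm_nonneg _)

/-- uniform lower bound of the energy -/
theorem energy_lower {ι : Type} [Fintype ι] {γ : ℝ} (hγ : 0 < γ) (Z : ℝ) (hZ : 0 ≤ Z) :
    ∃ C : ℝ, 0 ≤ C ∧ ∀ z : ι → ℝ, (∀ i, 0 ≤ z i ∧ z i ≤ Z) → ∀ (R : ι → X) (ρ : X → ℝ),
      Adm (∑ i, z i) ρ → Urep z R - C ≤ energy γ z R ρ := by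
  obtain ⟨C, hC, h⟩ := kin_attr_lower (ι := ι) hγ Z hZ
  refine ⟨C, hC, fun z hz R ρ hρ => ?_⟩
  have h1 := h z hz R ρ hρ
  have h2 := Dself_nonneg hρ.2.1
  unfold energy
  linarith

/-- the energy is bounded below -/
theorem energySet_bddBelow {ι : Type} [Fintype ι] {γ : ℝ} (hγ : 0 < γ) (z : ι → ℝ)
    (hz : ∀ i, 0 ≤ z i) (R : ι → X) : BddBelow (energySet γ z R) := by
  have hle : ∀ i, z i ≤ ∑ j, z j := fun i =>
    Finset.single_le_sum (f := z) (fun j _ => hz j) (Finset.mem_univ i)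
  obtain ⟨C, hC, h⟩ := energy_lower (ι := ι) hγ (∑ j, z j) (Finset.sum_nonneg fun j _ => hz j)
  refine ⟨Urep z R - C, ?_⟩
  rintro e ⟨ρ, hρ, rfl⟩
  exact h z (fun i => ⟨hz i, hle i⟩) R ρ hρ

/-! ### A trial density -/

/-- normalised indicator function of the unit ball -/
def ub (x : X) : ℝ := ((volume (Metric.ball (0 : X) 1)).toReal)⁻¹ * (Metric.ball (0 : X) 1).indicator 1 x

theorem vol_pos : 0 < (volume (Metric.ball (0 : X) 1)).toReal :=
  ENNReal.toReal_pos (Metric.measure_ball_pos volume 0 one_pos).ne' measure_ball_lt_top.ne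

theorem ub_nonneg (x : X) : 0 ≤ ub x := by
  unfold ub
  apply mul_nonneg (inv_nonneg.2 vol_pos.le)
  exact Set.indicator_nonneg (fun _ _ => zero_le_one) _

theorem ub_meas : Measurable ub :=
  (measurable_one.indicator measurableSet_ball).const_mul _

theorem ub_ind_int : Integrable ((Metric.ball (0 : X) 1).indicator (1 : X → ℝ)) := by
  rw [integrable_indicator_iff measurableSet_ball]
  exact integrableOn_const measure_ball_lt_top.ne

theorem ub_int : Integrable ub := ub_ind_int.const_mul _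

theorem ub_integral : ∫ x, ub x = 1 := by
  unfold ub
  rw [integral_const_mul, integral_indicator_one measurableSet_ball]
  unfold Measure.real
  exact inv_mul_cancel₀ vol_pos.ne'

theorem ub_rpow (s : ℝ) (hs : s ≠ 0) (x : X) :
    ub x ^ s = (((volume (Metric.ball (0 : X) 1)).toReal)⁻¹) ^ s *
      (Metric.ball (0 : X) 1).indicator 1 x := by
  unfold ub
  by_cases hx : x ∈ Metric.ball (0 : X) 1
  · rw [Set.indicator_of_mem hx]; simp
  · rw [Set.indicator_of_notMem hx]; simp [hs]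

theorem ub_rpow_int : Integrable (fun x => ub x ^ (5 / 3 : ℝ)) := by
  simp only [ub_rpow (5 / 3 : ℝ) (by norm_num)]
  exact ub_ind_int.const_mul _

/-- spread out densities -/
def ubL (Z L : ℝ) (x : X) : ℝ := Z * L⁻¹ ^ 3 * ub (L⁻¹ • x)

theorem finrank_X : Module.finrank ℝ X = 3 := by simp

theorem integral_smul_comp (f : X → ℝ) {s : ℝ} (hs : 0 < s) :
    ∫ x, f (s • x) = s⁻¹ ^ 3 * ∫ x, f x := by
  rw [Measure.integral_comp_smul, finrank_X, smul_eq_mul, abs_of_pos (by positivity), inv_pow]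

theorem ubL_adm {Z L : ℝ} (hZ : 0 ≤ Z) (hL : 0 < L) : Adm Z (ubL Z L) := by
  refine ⟨?_, ?_, ?_, ?_, ?_⟩
  · exact (ub_meas.comp (measurable_const_smul _)).const_mul _
  · intro x
    have := ub_nonneg (L⁻¹ • x)
    unfold ubL
    positivity
  · exact (ub_int.comp_smul (inv_pos.2 hL).ne').const_mul _
  · have : (fun x => ubL Z L x ^ (5 / 3 : ℝ)) =
        fun x => (Z * L⁻¹ ^ 3) ^ (5 / 3 : ℝ) * ub (L⁻¹ • x) ^ (5 / 3 : ℝ) := by
      funext x
      unfold ubL
      rw [Real.mul_rpow (by positivity) (ub_nonneg _)]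
    rw [this]
    exact (ub_rpow_int.comp_smul (inv_pos.2 hL).ne').const_mul _
  · unfold ubL
    rw [integral_const_mul, integral_smul_comp ub (inv_pos.2 hL), ub_integral]
    field_simp

/-- there are admissible densities -/
theorem energySet_nonempty {ι : Type} [Fintype ι] (γ : ℝ) (z : ι → ℝ) (hz : ∀ i, 0 ≤ z i)
    (R : ι → X) : (energySet γ z R).Nonempty :=
  ⟨_, ubL (∑ i, z i) 1, ubL_adm (Finset.sum_nonneg fun i _ => hz i) one_pos, rfl⟩

/-- two nuclei repel at short distance -/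
theorem two_lower {γ : ℝ} (hγ : 0 < γ) (Z : ℝ) : ∃ C : ℝ, ∀ z : Fin 2 → ℝ,
    (∀ i, 0 ≤ z i ∧ z i ≤ Z) → ∀ R : Fin 2 → X,
      z 0 * z 1 / ‖R 0 - R 1‖ - C ≤ TFE γ z R := by
  by_cases hZ : 0 ≤ Z
  · obtain ⟨C, hC, h⟩ := energy_lower (ι := Fin 2) hγ Z hZ
    refine ⟨C, fun z hz R => ?_⟩
    apply le_csInf (energySet_nonempty γ z (fun i => (hz i).1) R)
    rintro e ⟨ρ, hρ, rfl⟩
    have h1 := h z hz R ρ hρ
    have h2 : Urep z R = z 0 * z 1 / ‖R 0 - R 1‖ := by
      unfold Urep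
      rw [Fin.sum_univ_two, Fin.sum_univ_two, Fin.sum_univ_two, norm_sub_rev (R 1) (R 0)]
      simp
      ring
    rw [h2] at h1
    exact h1
  · exact ⟨0, fun z hz R => absurd ((hz 0).1.trans (hz 0).2) hZ⟩

/-! ## Translations and dilations -/

theorem Adm_translate {Z : ℝ} {ρ : X → ℝ} (h : Adm Z ρ) (a : X) : Adm Z (fun x => ρ (x - a)) := by
  obtain ⟨hm, h0, hi, h53, hmass⟩ := h
  refine ⟨hm.comp (measurable_id.sub_const a), fun x => h0 _, hi.comp_sub_right a,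
    h53.comp_sub_right a, ?_⟩
  rw [integral_sub_right_eq_self ρ a]; exact hmass

theorem energy_translate {ι : Type} [Fintype ι] (γ : ℝ) (z : ι → ℝ) (R : ι → X) (ρ : X → ℝ) (a : X) :
    energy γ z (fun i => R i + a) (fun x => ρ (x - a)) = energy γ z R ρ := by
  have e1 : ∫ x, ρ (x - a) ^ (5 / 3 : ℝ) = ∫ x, ρ x ^ (5 / 3 : ℝ) :=
    integral_sub_right_eq_self (fun x => ρ x ^ (5 / 3 : ℝ)) a
  have e2 : ∫ x, Vp z (fun i => R i + a) x * ρ (x - a) = ∫ x, Vp z R x * ρ x := by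
    rw [← integral_sub_right_eq_self (fun x => Vp z R x * ρ x) a]
    congr 1
    funext x
    congr 1
    unfold Vp
    refine Finset.sum_congr rfl fun i _ => ?_
    rw [show x - (R i + a) = x - a - R i by abel]
  have e3 : Dself (fun x => ρ (x - a)) = Dself ρ := by
    unfold Dself
    congr 1
    have h1 : ∀ x, (∫ y, ρ (x - a) * ρ (y - a) / ‖x - y‖) = ∫ y, ρ (x - a) * ρ y / ‖(x - a) - y‖ := by
      intro x
      rw [← integral_sub_right_eq_self (fun y => ρ (x - a) * ρ y / ‖(x - a) - y‖) a]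
      congr 1
      funext y
      rw [show x - a - (y - a) = x - y by abel]
    simp only [h1]
    exact integral_sub_right_eq_self (fun x => ∫ y, ρ x * ρ y / ‖x - y‖) a
  have e4 : Urep z (fun i => R i + a) = Urep z R := by
    unfold Urep
    simp only [add_sub_add_right_eq_sub]
  unfold energy
  rw [e1, e2, e3, e4]

theorem energySet_translate_subset {ι : Type} [Fintype ι] (γ : ℝ) (z : ι → ℝ) (R : ι → X) (a : X) :
    energySet γ z R ⊆ energySet γ z (fun i => R i + a) := by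
  rintro e ⟨ρ, hρ, rfl⟩
  exact ⟨fun x => ρ (x - a), Adm_translate hρ a, (energy_translate γ z R ρ a).symm⟩

/-- translation invariance -/
theorem TFE_translate {ι : Type} [Fintype ι] (γ : ℝ) (z : ι → ℝ) (R : ι → X) (a : X) :
    TFE γ z (fun i => R i + a) = TFE γ z R := by
  unfold TFE
  congr 1
  apply Set.Subset.antisymm
  · have := energySet_translate_subset γ z (fun i => R i + a) (-a)
    simpa using this
  · exact energySet_translate_subset γ z R a

theorem Adm_scale {Z : ℝ} {ρ : X → ℝ} (h : Adm Z ρ) {s : ℝ} (hs : 0 < s) :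
    Adm (s ^ 3 * Z) (fun x => s ^ 6 * ρ (s • x)) := by
  obtain ⟨hm, h0, hi, h53, hmass⟩ := h
  refine ⟨(hm.comp (measurable_const_smul _)).const_mul _, fun x => ?_,
    (hi.comp_smul hs.ne').const_mul _, ?_, ?_⟩
  · have := h0 (s • x)
    positivity
  · have : (fun x => (s ^ 6 * ρ (s • x)) ^ (5 / 3 : ℝ)) =
        fun x => (s ^ 6) ^ (5 / 3 : ℝ) * ρ (s • x) ^ (5 / 3 : ℝ) := by
      funext x
      rw [Real.mul_rpow (by positivity) (h0 _)]
    rw [this]
    exact (h53.comp_smul hs.ne').const_mul _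
  · rw [integral_const_mul, integral_smul_comp ρ hs, hmass]
    field_simp

theorem energy_scale {ι : Type} [Fintype ι] (γ : ℝ) (z : ι → ℝ) (R : ι → X) {ρ : X → ℝ}
    (h0 : ∀ x, 0 ≤ ρ x) {s : ℝ} (hs : 0 < s) :
    energy γ (fun i => s ^ 3 * z i) (fun i => s⁻¹ • R i) (fun x => s ^ 6 * ρ (s • x)) =
      s ^ 7 * energy γ z R ρ := by
  have hs' : (0 : ℝ) ≤ s := hs.le
  have hn : ∀ x y : X, ‖x - s⁻¹ • y‖ = s⁻¹ * ‖s • x - y‖ := by
    intro x y
    have : x - s⁻¹ • y = s⁻¹ • (s • x - y) := by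
      rw [smul_sub, smul_smul, inv_mul_cancel₀ hs.ne', one_smul]
    rw [this, norm_smul, Real.norm_of_nonneg (by positivity)]
  have e1 : ∫ x, (s ^ 6 * ρ (s • x)) ^ (5 / 3 : ℝ) = s ^ 7 * ∫ x, ρ x ^ (5 / 3 : ℝ) := by
    have : (fun x => (s ^ 6 * ρ (s • x)) ^ (5 / 3 : ℝ)) =
        fun x => s ^ 10 * (fun y => ρ y ^ (5 / 3 : ℝ)) (s • x) := by
      funext x
      rw [Real.mul_rpow (by positivity) (h0 _), ← Real.rpow_natCast, ← Real.rpow_mul hs']
      norm_num
    rw [this, integral_const_mul, integral_smul_comp (fun y => ρ y ^ (5 / 3 : ℝ)) hs]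
    field_simp
  have e2 : ∫ x, Vp (fun i => s ^ 3 * z i) (fun i => s⁻¹ • R i) x * (s ^ 6 * ρ (s • x)) =
      s ^ 7 * ∫ x, Vp z R x * ρ x := by
    have : (fun x => Vp (fun i => s ^ 3 * z i) (fun i => s⁻¹ • R i) x * (s ^ 6 * ρ (s • x))) =
        fun x => s ^ 10 * (fun y => Vp z R y * ρ y) (s • x) := by
      funext x
      simp only
      unfold Vp
      rw [Finset.sum_mul, Finset.sum_mul, Finset.mul_sum]
      refine Finset.sum_congr rfl fun i _ => ?_
      rw [hn]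
      by_cases h : ‖s • x - R i‖ = 0
      · rw [h]; simp
      · field_simp
    rw [this, integral_const_mul, integral_smul_comp (fun y => Vp z R y * ρ y) hs]
    field_simp
  have e3 : Dself (fun x => s ^ 6 * ρ (s • x)) = s ^ 7 * Dself ρ := by
    unfold Dself
    have h1 : ∀ x : X, (∫ y, s ^ 6 * ρ (s • x) * (s ^ 6 * ρ (s • y)) / ‖x - y‖) =
        s ^ 10 * (fun x' => ∫ y, ρ x' * ρ y / ‖x' - y‖) (s • x) := by
      intro x
      have : (fun y : X => s ^ 6 * ρ (s • x) * (s ^ 6 * ρ (s • y)) / ‖x - y‖) =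
          fun y => s ^ 13 * (fun y' => ρ (s • x) * ρ y' / ‖s • x - y'‖) (s • y) := by
        funext y
        simp only
        have h2 : ‖s • x - s • y‖ = s * ‖x - y‖ := by
          rw [← smul_sub, norm_smul, Real.norm_of_nonneg hs']
        rw [h2]
        by_cases h : ‖x - y‖ = 0
        · rw [h]; simp
        · field_simp
      rw [this, integral_const_mul,
        integral_smul_comp (fun y' => ρ (s • x) * ρ y' / ‖s • x - y'‖) hs]
      field_simp
    simp_rw [h1]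
    rw [integral_const_mul, integral_smul_comp (fun x' => ∫ y, ρ x' * ρ y / ‖x' - y‖) hs]
    field_simp
  have e4 : Urep (fun i => s ^ 3 * z i) (fun i => s⁻¹ • R i) = s ^ 7 * Urep z R := by
    classical
    unfold Urep
    rw [← mul_assoc, mul_comm (s ^ 7) (1 / 2), mul_assoc]
    congr 1
    rw [Finset.mul_sum]
    refine Finset.sum_congr rfl fun i _ => ?_
    rw [Finset.mul_sum]
    refine Finset.sum_congr rfl fun j _ => ?_
    split_ifs with h
    · simp
    · rw [← smul_sub, norm_smul, Real.norm_of_nonneg (by positivity)]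
      by_cases h : ‖R i - R j‖ = 0
      · rw [h]; simp
      · field_simp
  unfold energy
  rw [e1, e2, e3, e4]
  ring

theorem energySet_scale_subset {ι : Type} [Fintype ι] (γ : ℝ) (z : ι → ℝ) (R : ι → X) {s : ℝ}
    (hs : 0 < s) {e : ℝ} (he : e ∈ energySet γ z R) :
    s ^ 7 * e ∈ energySet γ (fun i => s ^ 3 * z i) (fun i => s⁻¹ • R i) := by
  obtain ⟨ρ, hρ, rfl⟩ := he
  refine ⟨fun x => s ^ 6 * ρ (s • x), ?_, (energy_scale γ z R hρ.2.1 hs).symm⟩
  rw [← Finset.mul_sum]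
  exact Adm_scale hρ hs

/-- dilations -/
theorem TFE_scale {ι : Type} [Fintype ι] (γ : ℝ) (z : ι → ℝ) (R : ι → X) {s : ℝ} (hs : 0 < s) :
    TFE γ (fun i => s ^ 3 * z i) (fun i => s⁻¹ • R i) = s ^ 7 * TFE γ z R := by
  unfold TFE
  have h1 : energySet γ (fun i => s ^ 3 * z i) (fun i => s⁻¹ • R i) = (s ^ 7) • energySet γ z R := by
    ext e
    rw [Set.mem_smul_set]
    constructor
    · intro he
      have h2 := energySet_scale_subset γ _ _ (inv_pos.2 hs) he
      refine ⟨s⁻¹ ^ 7 * e, ?_, ?_⟩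
      · have e1 : (fun i => s⁻¹ ^ 3 * (s ^ 3 * z i)) = z := by
          funext i; field_simp
        have e2 : (fun i => (s⁻¹)⁻¹ • s⁻¹ • R i) = R := by
          funext i; rw [inv_inv, smul_smul, mul_inv_cancel₀ hs.ne', one_smul]
        rw [e1, e2] at h2
        exact h2
      · rw [smul_eq_mul]; field_simp
    · rintro ⟨e', he', rfl⟩
      exact energySet_scale_subset γ z R hs he'
  rw [h1, Real.sInf_smul_of_nonneg (by positivity), smul_eq_mul]

/-- a single charge has nonpositive energy -/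
theorem one_nonpos {ι : Type} [Fintype ι] {γ : ℝ} (hγ : 0 < γ) (z : ι → ℝ) (hz : ∀ i, 0 ≤ z i)
    (i₀ : ι) (h : ∀ i, i ≠ i₀ → z i = 0) (R : ι → X) : TFE γ z R ≤ 0 := by
  classical
  have hbdd := energySet_bddBelow hγ z hz R
  set Z : ℝ := ∑ i, z i with hZ
  have hZn : 0 ≤ Z := Finset.sum_nonneg fun i _ => hz i
  have hU : Urep z R = 0 := by
    unfold Urep
    rw [Finset.sum_eq_zero, mul_zero]
    intro i _
    apply Finset.sum_eq_zero
    intro j _
    split_ifs with hij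
    · rfl
    · by_cases hi : i = i₀
      · have : z j = 0 := h j (fun hj => hij (hi.trans hj.symm))
        rw [this]; simp
      · rw [h i hi]; simp
  -- energy of the spread out density
  have hE : ∀ L : ℝ, 0 < L → energy γ z R (ubL Z L) ≤
      (3 / 5) * γ * (Z ^ (5 / 3 : ℝ) * (∫ x, ub x ^ (5 / 3 : ℝ))) * L⁻¹ ^ 2 + Z ^ 2 * Dself ub * L⁻¹ := by
    intro L hL
    have hLi : 0 < L⁻¹ := inv_pos.2 hL
    have e1 : ∫ x, ubL Z L x ^ (5 / 3 : ℝ) = Z ^ (5 / 3 : ℝ) * (∫ x, ub x ^ (5 / 3 : ℝ)) * L⁻¹ ^ 2 := by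
      have : (fun x => ubL Z L x ^ (5 / 3 : ℝ)) =
          fun x => (Z ^ (5 / 3 : ℝ) * L⁻¹ ^ 5) * (fun y => ub y ^ (5 / 3 : ℝ)) (L⁻¹ • x) := by
        funext x
        unfold ubL
        rw [Real.mul_rpow (by positivity) (ub_nonneg _), Real.mul_rpow hZn (by positivity),
          ← Real.rpow_natCast (L⁻¹) 3, ← Real.rpow_mul hLi.le]
        norm_num
      rw [this, integral_const_mul, integral_smul_comp (fun y => ub y ^ (5 / 3 : ℝ)) hLi]
      field_simp
    have e2 : 0 ≤ ∫ x, Vp z R x * ubL Z L x := by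
      apply integral_nonneg
      intro x
      apply mul_nonneg
      · exact Finset.sum_nonneg fun i _ => div_nonneg (hz i) (norm_nonneg _)
      · exact (ubL_adm hZn hL).2.1 x
    have e3 : Dself (ubL Z L) = Z ^ 2 * Dself ub * L⁻¹ := by
      unfold Dself
      have h1 : ∀ x : X, (∫ y, ubL Z L x * ubL Z L y / ‖x - y‖) =
          (Z ^ 2 * L⁻¹ ^ 4) * (fun x' => ∫ y, ub x' * ub y / ‖x' - y‖) (L⁻¹ • x) := by
        intro x
        have : (fun y : X => ubL Z L x * ubL Z L y / ‖x - y‖) =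
            fun y => (Z ^ 2 * L⁻¹ ^ 7) * (fun y' => ub (L⁻¹ • x) * ub y' / ‖L⁻¹ • x - y'‖) (L⁻¹ • y) := by
          funext y
          simp only
          have h2 : ‖L⁻¹ • x - L⁻¹ • y‖ = L⁻¹ * ‖x - y‖ := by
            rw [← smul_sub, norm_smul, Real.norm_of_nonneg hLi.le]
          rw [h2]
          unfold ubL
          by_cases h : ‖x - y‖ = 0
          · rw [h]; simp
          · field_simp
        rw [this, integral_const_mul,
          integral_smul_comp (fun y' => ub (L⁻¹ • x) * ub y' / ‖L⁻¹ • x - y'‖) hLi]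
        field_simp
      simp_rw [h1]
      rw [integral_const_mul, integral_smul_comp (fun x' => ∫ y, ub x' * ub y / ‖x' - y‖) hLi]
      field_simp
    unfold energy
    rw [e1, e3, hU]
    have : 0 ≤ ∫ x, Vp z R x * ubL Z L x := e2
    nlinarith
  -- limit
  have hlim : Filter.Tendsto (fun L : ℝ => (3 / 5) * γ * (Z ^ (5 / 3 : ℝ) * (∫ x, ub x ^ (5 / 3 : ℝ))) * L⁻¹ ^ 2
      + Z ^ 2 * Dself ub * L⁻¹) Filter.atTop (nhds 0) := by
    have t1 : Filter.Tendsto (fun L : ℝ => L⁻¹) Filter.atTop (nhds 0) := tendsto_inv_atTop_zero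
    have t2 := (t1.pow 2).const_mul ((3 / 5) * γ * (Z ^ (5 / 3 : ℝ) * (∫ x, ub x ^ (5 / 3 : ℝ))))
    have t3 := t1.const_mul (Z ^ 2 * Dself ub)
    have := t2.add t3
    simpa using this
  apply ge_of_tendsto hlim
  filter_upwards [Filter.eventually_gt_atTop 0] with L hL
  exact (csInf_le hbdd ⟨ubL Z L, ubL_adm hZn hL, rfl⟩).trans (hE L hL)

end

end Pool.Agent.Helper96.TF
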