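import Pool.Agent.Helper96.TF.Mix
import Pool.Agent.Helper69.TF.Bump2

/-! # Module D: weak duality and the smeared nuclei -/

set_option autoImplicit false

open MeasureTheory Set Filter Topology

namespace Pool.Agent.Helper96.TF

noncomputable section

/-- the field of the smeared unit charge -/
lemma fldE {ε : ℝ} (hε : 0 < ε) : Fld (mE ε) (vE ε) := by
  refine ⟨mE_cont ε, mE_hcs hε, ⟨_, vE_lip hε⟩, ⟨1, fun x => ?_⟩,
    fun x i => (vE_line hε i x).lineDifferentiableAt, fun i => ?_, fun ψ hψ => ?_, newton hε⟩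
  · rw [abs_of_pos (vE_pos hε x)]
    by_cases hx : x = 0
    · rw [hx]; simp
    · have h1 := vE_le hε hx
      have h2 : 0 < ‖x‖ := norm_pos_iff.2 hx
      calc vE ε x * ‖x‖ ≤ ‖x‖⁻¹ * ‖x‖ := by gcongr
        _ = 1 := inv_mul_cancel₀ h2.ne'
  · simp_rw [fun x => (vE_line hε i x).lineDeriv]
    exact (bE_lip hε i).continuous
  · unfold gg
    simp_rw [fun x i => (vE_line hε i x).lineDeriv]
    exact green_vE hε hψ

lemma BC.fint {σ f : X → ℝ} (h : BC σ) (hf : Measurable f) {M : ℝ} (hM : ∀ x, |f x| ≤ M) :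
    Integrable (fun x => f x * σ x) := by
  refine (h.mul hf hM).int.congr (ae_of_all _ fun x => ?_)
  simp only; ring

lemma mE_int_m {ε : ℝ} (hε : 0 < ε) : Integrable (mE ε) := mE_integrable hε

/-- Fubini for mixtures against bounded functions -/
lemma mix_pair_bdd {u ρ g : X → ℝ} (hum : Measurable u) (hu : Integrable u) (hρ : BC ρ)
    (hg : Measurable g) {M : ℝ} (hM : ∀ x, |g x| ≤ M) :
    ∫ x, mix u ρ x * g x = ∫ y, ρ y * ∫ x, u (x - y) * g x := by
  have h0 : Integrable (fun p : X × X => u (p.1 - p.2) * ρ p.2) (volume.prod volume) := by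
    have hmeas : Measurable (fun p : X × X => u (p.1 - p.2) * ρ p.2) :=
      (hum.comp (by fun_prop)).mul (hρ.meas.comp measurable_snd)
    rw [integrable_prod_iff' hmeas.aestronglyMeasurable]
    refine ⟨ae_of_all _ fun y => ?_, ?_⟩
    · show Integrable (fun x => u (x - y) * ρ y)
      exact (hu.comp_sub_right y).mul_const _
    have : (fun y : X => ∫ x, ‖u (x - y) * ρ y‖) = fun y => (∫ x, |u x|) * |ρ y| := by
      funext y
      simp_rw [norm_mul, Real.norm_eq_abs]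
      rw [integral_mul_const, integral_sub_right_eq_self (fun x => |u x|) y]
    rw [this]
    exact hρ.int.abs.const_mul _
  have h1 : Integrable (fun p : X × X => u (p.1 - p.2) * ρ p.2 * g p.1) (volume.prod volume) := by
    refine h0.mul_bdd (c := M) (hg.comp measurable_fst).aestronglyMeasurable (ae_of_all _ fun p => ?_)
    rw [Real.norm_eq_abs]; exact hM _
  calc ∫ x, mix u ρ x * g x = ∫ x, ∫ y, u (x - y) * ρ y * g x := by
        refine integral_congr_ae (ae_of_all _ fun x => ?_)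
        simp only
        unfold mix
        rw [integral_mul_const]
    _ = ∫ y, ∫ x, u (x - y) * ρ y * g x := integral_integral_swap h1
    _ = _ := by
        refine integral_congr_ae (ae_of_all _ fun y => ?_)
        simp only
        rw [← integral_const_mul]
        refine integral_congr_ae (ae_of_all _ fun x => ?_)
        simp only; ring

lemma mE_shift_int {ε : ℝ} (hε : 0 < ε) (y : X) : ∫ x, mE ε (x - y) = 1 := by
  rw [integral_sub_right_eq_self (mE ε) y]; exact mE_int hε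

lemma mE_shift_int' {ε : ℝ} (hε : 0 < ε) (x : X) : ∫ y, mE ε (x - y) = 1 := by
  rw [integral_sub_left_eq_self (mE ε) volume x]; exact mE_int hε

/-- smearing preserves the mass -/
lemma mix_mass {ε : ℝ} (hε : 0 < ε) {ρ : X → ℝ} (hρ : BC ρ) :
    ∫ x, mix (mE ε) ρ x = ∫ x, ρ x := by
  have h := mix_pair_bdd (g := fun _ => (1 : ℝ)) (mE_cont ε).measurable (mE_integrable hε) hρ
    measurable_const (M := 1) (fun x => by simp)
  simp only [mul_one] at h
  rw [h]
  refine integral_congr_ae (ae_of_all _ fun y => ?_)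
  simp only
  rw [mE_shift_int hε, mul_one]

lemma mix_close {ε : ℝ} (hε : 0 < ε) {ρ f : X → ℝ} (hρ : BC ρ) {L : NNReal} (hf : LipschitzWith L f)
    {M : ℝ} (hM : ∀ x, |f x| ≤ M) :
    |(∫ x, f x * mix (mE ε) ρ x) - ∫ x, f x * ρ x| ≤ L * ε * ∫ x, |ρ x| := by
  have hfm := hf.continuous.measurable
  have h := mix_pair_bdd (g := f) (mE_cont ε).measurable (mE_integrable hε) hρ hfm hM
  have hint : ∀ y, Integrable (fun x => mE ε (x - y) * f x) := by
    intro y
    refine ((mE_integrable hε).comp_sub_right y).mul_bdd (c := M) hfm.aestronglyMeasurable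
      (ae_of_all _ fun x => ?_)
    rw [Real.norm_eq_abs]; exact hM _
  have hclose : ∀ y, |(∫ x, mE ε (x - y) * f x) - f y| ≤ L * ε := by
    intro y
    have e1 : f y = ∫ x, mE ε (x - y) * f y := by
      rw [integral_mul_const, mE_shift_int hε, one_mul]
    have e2 : (∫ x, mE ε (x - y) * f x) - f y = ∫ x, mE ε (x - y) * (f x - f y) := by
      conv_lhs => rw [e1]
      rw [← integral_sub (hint y) (((mE_integrable hε).comp_sub_right y).mul_const _)]
      refine integral_congr_ae (ae_of_all _ fun x => ?_)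
      simp only; ring
    rw [e2, ← Real.norm_eq_abs]
    have e3 : (L : ℝ) * ε = ∫ x, mE ε (x - y) * (L * ε) := by
      rw [integral_mul_const, mE_shift_int hε, one_mul]
    rw [e3]
    refine norm_integral_le_of_norm_le (((mE_integrable hε).comp_sub_right y).mul_const _)
      (ae_of_all _ fun x => ?_)
    rw [Real.norm_eq_abs, abs_mul, abs_of_nonneg (mE_nonneg hε _)]
    by_cases hx : ε ≤ ‖x - y‖
    · rw [mE_supp hε hx]; simp
    · rw [not_le] at hx
      refine mul_le_mul_of_nonneg_left ?_ (mE_nonneg hε _)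
      have h1 := hf.dist_le_mul x y
      rw [Real.dist_eq, dist_eq_norm] at h1
      exact h1.trans (mul_le_mul_of_nonneg_left hx.le L.2)
  have e1 : ∫ x, f x * mix (mE ε) ρ x = ∫ y, ρ y * ∫ x, mE ε (x - y) * f x := by
    rw [← h]
    refine integral_congr_ae (ae_of_all _ fun x => ?_)
    simp only; ring
  have hmeasI : Measurable (fun y => ∫ x, mE ε (x - y) * f x) := by
    have : StronglyMeasurable (fun p : X × X => mE ε (p.2 - p.1) * f p.2) := by
      apply Measurable.stronglyMeasurable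
      exact ((mE_cont ε).measurable.comp (by fun_prop)).mul (hfm.comp measurable_snd)
    exact this.integral_prod_right.measurable
  have hbI : ∀ y, |∫ x, mE ε (x - y) * f x| ≤ L * ε + M := by
    intro y
    have h1 := hclose y
    have h2 := hM y
    have h3 : |∫ x, mE ε (x - y) * f x| ≤ |(∫ x, mE ε (x - y) * f x) - f y| + |f y| := by
      have := abs_add_le ((∫ x, mE ε (x - y) * f x) - f y) (f y)
      simpa using this
    linarith
  have i1 : Integrable (fun y => ρ y * ∫ x, mE ε (x - y) * f x) :=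
    (hρ.mul hmeasI hbI).int
  have i2 : Integrable (fun y => f y * ρ y) := hρ.fint hfm hM
  rw [e1, ← integral_sub i1 i2, ← Real.norm_eq_abs, ← integral_const_mul]
  refine norm_integral_le_of_norm_le (hρ.int.abs.const_mul _) (ae_of_all _ fun y => ?_)
  have : (ρ y * ∫ x, mE ε (x - y) * f x) - f y * ρ y = ((∫ x, mE ε (x - y) * f x) - f y) * ρ y := by
    ring
  rw [this, Real.norm_eq_abs, abs_mul]
  exact mul_le_mul_of_nonneg_right (hclose y) (abs_nonneg _)

/-- tangent line of `t^{5/3}` -/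
lemma tangent {a c : ℝ} (ha : 0 ≤ a) (hc : 0 ≤ c) :
    (5 / 3) * c ^ (2 / 3 : ℝ) * a - (2 / 3) * c ^ (5 / 3 : ℝ) ≤ a ^ (5 / 3 : ℝ) := by
  have h := Real.young_inequality_of_nonneg (a := a) (b := c ^ (2 / 3 : ℝ)) (p := 5 / 3) (q := 5 / 2)
    ha (by positivity) (by constructor <;> norm_num)
  rw [← Real.rpow_mul hc] at h
  norm_num at h
  have e : (2 / 3 * (5 / 2) : ℝ) = 5 / 3 := by norm_num
  nlinarith

lemma BC.rpowW {ρ : X → ℝ} (hρ : BC ρ) (h0 : ∀ x, 0 ≤ ρ x) {s : ℝ} (hs : 0 < s) :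
    BC (fun x => ρ x ^ s) := by
  obtain ⟨M, hM, hb⟩ := hρ.bdd
  obtain ⟨R, hR, hr⟩ := hρ.supp
  refine ⟨hρ.meas.pow_const s, ⟨M ^ s, by positivity, fun x => ?_⟩, ⟨R, hR, fun x hx => ?_⟩⟩
  · rw [abs_of_nonneg (Real.rpow_nonneg (h0 x) _)]
    refine Real.rpow_le_rpow (h0 x) ?_ hs.le
    have := hb x
    rwa [abs_of_nonneg (h0 x)] at this
  · rw [hr x hx, Real.zero_rpow hs.ne']

lemma mix_nonneg {ε : ℝ} (hε : 0 < ε) {ρ : X → ℝ} (h0 : ∀ x, 0 ≤ ρ x) (x : X) :
    0 ≤ mix (mE ε) ρ x :=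
  integral_nonneg fun y => mul_nonneg (mE_nonneg hε _) (h0 y)

/-- Jensen's inequality for the smearing -/
lemma jensen {ε : ℝ} (hε : 0 < ε) {ρ : X → ℝ} (hρ : BC ρ) (h0 : ∀ x, 0 ≤ ρ x) :
    ∫ x, mix (mE ε) ρ x ^ (5 / 3 : ℝ) ≤ ∫ x, ρ x ^ (5 / 3 : ℝ) := by
  obtain ⟨S, hS0, hS⟩ := (fldE hε).bddS
  have hρ' : BC (fun x => ρ x ^ (5 / 3 : ℝ)) := hρ.rpowW h0 (by norm_num)
  have hmixBC : BC (mix (mE ε) ρ) := BC.of_cont (mix_cont (mE_cont ε) hS hρ) (mix_supp (mE_hcs hε) hρ)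
  have hmixBC' : BC (mix (mE ε) (fun x => ρ x ^ (5 / 3 : ℝ))) :=
    BC.of_cont (mix_cont (mE_cont ε) hS hρ') (mix_supp (mE_hcs hε) hρ')
  rw [← mix_mass hε hρ']
  apply integral_mono (hmixBC.rpowW (fun x => mix_nonneg hε h0 x) (by norm_num)).int hmixBC'.int
  intro x
  simp only
  set c := mix (mE ε) ρ x with hc
  have hcn : 0 ≤ c := mix_nonneg hε h0 x
  have i1 := mix_int (mE_cont ε).measurable hS hρ x
  have i2 := mix_int (mE_cont ε).measurable hS hρ' x
  have i3 : Integrable (fun y => mE ε (x - y)) := (mE_integrable hε).comp_sub_left x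
  have h1 : ∫ y, ((5 / 3) * c ^ (2 / 3 : ℝ) * (mE ε (x - y) * ρ y) -
      (2 / 3) * c ^ (5 / 3 : ℝ) * mE ε (x - y)) ≤ ∫ y, mE ε (x - y) * ρ y ^ (5 / 3 : ℝ) := by
    have i12 : Integrable (fun y => (5 / 3) * c ^ (2 / 3 : ℝ) * (mE ε (x - y) * ρ y) -
        (2 / 3) * c ^ (5 / 3 : ℝ) * mE ε (x - y)) := (i1.const_mul _).sub (i3.const_mul _)
    apply integral_mono i12 i2
    intro y
    have h2 := tangent (h0 y) hcn
    have h3 := mul_le_mul_of_nonneg_left h2 (mE_nonneg hε (x - y))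
    have h3' : mE ε (x - y) * ((5 / 3) * c ^ (2 / 3 : ℝ) * ρ y - (2 / 3) * c ^ (5 / 3 : ℝ)) =
        (5 / 3) * c ^ (2 / 3 : ℝ) * (mE ε (x - y) * ρ y) -
        (2 / 3) * c ^ (5 / 3 : ℝ) * mE ε (x - y) := by ring
    rw [h3'] at h3
    exact h3
  rw [integral_sub (i1.const_mul _) (i3.const_mul _), integral_const_mul, integral_const_mul,
    mE_shift_int' hε] at h1
  have h4 : ∫ y, mE ε (x - y) * ρ y = c := rfl
  rw [h4] at h1
  have h5 : c ^ (2 / 3 : ℝ) * c = c ^ (5 / 3 : ℝ) := by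
    rcases hcn.eq_or_lt with h | h
    · rw [← h, Real.zero_rpow (by norm_num), Real.zero_rpow (by norm_num)]; simp
    · conv_lhs => rw [← Real.rpow_one c, ← Real.rpow_mul h.le]
      rw [← Real.rpow_add h]
      norm_num
  have h6 : ∫ y, mE ε (x - y) * ρ y ^ (5 / 3 : ℝ) = mix (mE ε) (fun x => ρ x ^ (5 / 3 : ℝ)) x := rfl
  rw [h6] at h1
  calc c ^ (5 / 3 : ℝ) = 5 / 3 * c ^ (2 / 3 : ℝ) * c - 2 / 3 * c ^ (5 / 3 : ℝ) * 1 := by
        rw [mul_assoc (5 / 3 : ℝ), h5]; ring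
    _ ≤ _ := h1

/-! ### Coulomb energies of fields -/

lemma inner_pot (σ : X → ℝ) (x : X) : ∫ y, σ x * σ y / ‖x - y‖ = σ x * ∫ y, σ y / ‖x - y‖ := by
  rw [← integral_const_mul]
  refine integral_congr_ae (ae_of_all _ fun y => ?_)
  simp only; ring

lemma Dself_fld {σ w : X → ℝ} (h : Fld σ w) : Dself σ = (1 / 2) * ∫ x, w x * σ x := by
  unfold Dself
  congr 1
  refine integral_congr_ae (ae_of_all _ fun x => ?_)
  simp only
  rw [inner_pot, h.newton]; ring

lemma fld_symm {σ w σ' w' : X → ℝ} (h : Fld σ w) (h' : Fld σ' w') :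
    ∫ x, w x * σ' x = ∫ x, w' x * σ x := by
  have h1 : ∫ x, w x * σ' x = ∫ x, ∫ y, σ' x * σ y / ‖x - y‖ := by
    refine integral_congr_ae (ae_of_all _ fun x => ?_)
    simp only
    rw [← h.newton x, ← integral_mul_const]
    refine integral_congr_ae (ae_of_all _ fun y => ?_)
    simp only; ring
  rw [h1, integral_integral_swap (h'.bc.prod h.bc)]
  refine integral_congr_ae (ae_of_all _ fun y => ?_)
  simp only
  rw [← h'.newton y, ← integral_mul_const]
  refine integral_congr_ae (ae_of_all _ fun x => ?_)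
  simp only
  rw [norm_sub_rev]; ring

/-- smearing decreases the Coulomb energy -/
lemma Dself_mix {ε : ℝ} (hε : 0 < ε) {ρ : X → ℝ} (hρ : BC ρ) (h0 : ∀ x, 0 ≤ ρ x) :
    Dself (mix (mE ε) ρ) ≤ Dself ρ := by
  have hF := (fldE hε).mixed hρ
  obtain ⟨M, hM0, hM⟩ := (fldE hε).bdd
  rw [Dself_fld hF]
  unfold Dself
  refine mul_le_mul_of_nonneg_left ?_ (by norm_num)
  have hvm : Measurable (vE ε) := (vE_cont hε).measurable
  rw [mix_pair hvm hM hρ hF.bc.int]
  have hAint : ∀ y, Integrable (fun x => vE ε (x - y) * mix (mE ε) ρ x) := fun y =>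
    hF.bc.fint (hvm.comp (measurable_id.sub_const y)) (fun x => hM _)
  have hle : ∀ y, ∫ x, vE ε (x - y) * mix (mE ε) ρ x ≤ ∫ z, ρ z / ‖y - z‖ := by
    intro y
    calc ∫ x, vE ε (x - y) * mix (mE ε) ρ x ≤ ∫ x, mix (mE ε) ρ x / ‖y - x‖ := by
          apply integral_mono_ae (hAint y) (hF.bc.pot y)
          have hne : ∀ᵐ x : X, x ≠ y := by
            simp [ae_iff, measure_singleton]
          filter_upwards [hne] with x hx
          have h1 := vE_le hε (sub_ne_zero.2 hx)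
          rw [norm_sub_rev y x, div_eq_inv_mul]
          exact mul_le_mul_of_nonneg_right h1 (mix_nonneg hε h0 x)
      _ = mix (vE ε) ρ y := hF.newton y
      _ ≤ ∫ z, ρ z / ‖y - z‖ := by
          unfold mix
          apply integral_mono_ae (mix_int hvm hM hρ y) (hρ.pot y)
          have hne : ∀ᵐ x : X, x ≠ y := by
            simp [ae_iff, measure_singleton]
          filter_upwards [hne] with z hz
          have h1 := vE_le hε (sub_ne_zero.2 hz.symm)
          rw [div_eq_inv_mul]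
          exact mul_le_mul_of_nonneg_right h1 (h0 z)
  have hR : ∫ x, ∫ y, ρ x * ρ y / ‖x - y‖ = ∫ y, ρ y * ∫ z, ρ z / ‖y - z‖ := by
    refine integral_congr_ae (ae_of_all _ fun x => ?_)
    simp only
    rw [inner_pot]
  rw [hR]
  have hoI : Integrable (fun y => ρ y * ∫ z, ρ z / ‖y - z‖) := by
    have := (hρ.prod hρ).integral_prod_left
    refine this.congr (ae_of_all _ fun x => ?_)
    simp only
    rw [inner_pot]
  have hmeasA : Measurable (fun y => ∫ x, vE ε (x - y) * mix (mE ε) ρ x) := by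
    have : StronglyMeasurable (fun p : X × X => vE ε (p.2 - p.1) * mix (mE ε) ρ p.2) := by
      apply Measurable.stronglyMeasurable
      exact (hvm.comp (by fun_prop)).mul (hF.bc.meas.comp measurable_snd)
    exact this.integral_prod_right.measurable
  have hbA : ∀ y, |∫ x, vE ε (x - y) * mix (mE ε) ρ x| ≤ M * ∫ x, |mix (mE ε) ρ x| := by
    intro y
    rw [← Real.norm_eq_abs, ← integral_const_mul]
    refine norm_integral_le_of_norm_le (hF.bc.int.abs.const_mul _) (ae_of_all _ fun x => ?_)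
    rw [Real.norm_eq_abs, abs_mul]
    exact mul_le_mul_of_nonneg_right (hM _) (abs_nonneg _)
  apply integral_mono (hρ.mul hmeasA hbA).int hoI
  intro y
  exact mul_le_mul_of_nonneg_left (hle y) (h0 y)

/-- Coulomb part of weak duality, bounded densities of compact support -/
lemma coul_bc {ν V ρ φ : X → ℝ} (hF : Fld ν V) (hρ : BC ρ) (h0 : ∀ x, 0 ≤ ρ x) (hφ : Test φ) :
    (∫ x, φ x * ν x) - (∫ x, φ x * ρ x) ≤
      Dir φ + Dself ρ - (∫ x, V x * ρ x) + (1 / 2) * ∫ x, V x * ν x := by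
  obtain ⟨Mφ, hMφ0, hMφ⟩ := hφ.bdd
  obtain ⟨Lφ, hLφ⟩ := hφ.1
  obtain ⟨MV, hMV0, hMV⟩ := hF.bdd
  obtain ⟨LV, hLV⟩ := hF.wl
  set K : ℝ := (Lφ + LV) * ∫ x, |ρ x| with hK
  have hρn : 0 ≤ ∫ x, |ρ x| := integral_nonneg fun x => abs_nonneg _
  have hKn : 0 ≤ K := by positivity
  have key : ∀ ε : ℝ, 0 < ε → (∫ x, φ x * ν x) - (∫ x, φ x * ρ x) ≤
      Dir φ + Dself ρ - (∫ x, V x * ρ x) + (1 / 2) * (∫ x, V x * ν x) + K * ε := by
    intro ε hε
    have hE := (fldE hε).mixed hρ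
    obtain ⟨Mu, hMu0, hMu⟩ := hE.bdd
    have h1 := field_bound (hF.sub hE) hφ
    have i1 : Integrable (fun x => φ x * ν x) := hF.bc.fint hφ.cont.measurable hMφ
    have i2 : Integrable (fun x => φ x * mix (mE ε) ρ x) := hE.bc.fint hφ.cont.measurable hMφ
    have e1 : ∫ x, φ x * (ν x - mix (mE ε) ρ x) = (∫ x, φ x * ν x) - ∫ x, φ x * mix (mE ε) ρ x := by
      rw [← integral_sub i1 i2]
      refine integral_congr_ae (ae_of_all _ fun x => ?_)
      simp only; ring
    have j1 : Integrable (fun x => V x * ν x) := hF.bc.fint hF.wc.measurable hMV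
    have j2 : Integrable (fun x => V x * mix (mE ε) ρ x) := hE.bc.fint hF.wc.measurable hMV
    have j3 : Integrable (fun x => mix (vE ε) ρ x * ν x) := hF.bc.fint hE.wc.measurable hMu
    have j4 : Integrable (fun x => mix (vE ε) ρ x * mix (mE ε) ρ x) :=
      hE.bc.fint hE.wc.measurable hMu
    have e2 : ∫ x, (V x - mix (vE ε) ρ x) * (ν x - mix (mE ε) ρ x) =
        ((∫ x, V x * ν x) - ∫ x, V x * mix (mE ε) ρ x) -
        ((∫ x, mix (vE ε) ρ x * ν x) - ∫ x, mix (vE ε) ρ x * mix (mE ε) ρ x) := by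
      have k1 : Integrable (fun x => V x * ν x - V x * mix (mE ε) ρ x) := j1.sub j2
      have k2 : Integrable (fun x => mix (vE ε) ρ x * ν x - mix (vE ε) ρ x * mix (mE ε) ρ x) :=
        j3.sub j4
      rw [← integral_sub j1 j2, ← integral_sub j3 j4, ← integral_sub k1 k2]
      refine integral_congr_ae (ae_of_all _ fun x => ?_)
      simp only; ring
    rw [e1, e2, fld_symm hE hF] at h1
    have h2 := Dself_mix hε hρ h0
    rw [Dself_fld hE] at h2
    have h3 := (abs_le.1 (mix_close hε hρ hLφ hMφ)).2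
    have h4 := (abs_le.1 (mix_close hε hρ hLV hMV)).1
    have h5 : K * ε = Lφ * ε * (∫ x, |ρ x|) + LV * ε * ∫ x, |ρ x| := by rw [hK]; ring
    linarith
  by_contra hcon
  push Not at hcon
  set D : ℝ := ((∫ x, φ x * ν x) - (∫ x, φ x * ρ x)) -
    (Dir φ + Dself ρ - (∫ x, V x * ρ x) + (1 / 2) * ∫ x, V x * ν x) with hD
  have hDpos : 0 < D := by linarith
  have h1 := key (D / (2 * (K + 1))) (by positivity)
  have h2 : K * (D / (2 * (K + 1))) ≤ D / 2 := by
    rw [mul_div_assoc', div_le_div_iff₀ (by positivity) (by norm_num)]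
    nlinarith
  linarith

/-- truncated densities -/
def trunc (ρ : X → ℝ) (n : ℕ) (x : X) : ℝ :=
  (Metric.closedBall (0 : X) n).indicator (fun x => min (ρ x) n) x

lemma trunc_nonneg {ρ : X → ℝ} (h0 : ∀ x, 0 ≤ ρ x) (n : ℕ) (x : X) : 0 ≤ trunc ρ n x := by
  unfold trunc
  exact indicator_nonneg (fun x _ => le_min (h0 x) (Nat.cast_nonneg n)) x

lemma trunc_le {ρ : X → ℝ} (h0 : ∀ x, 0 ≤ ρ x) (n : ℕ) (x : X) : trunc ρ n x ≤ ρ x := by
  unfold trunc
  by_cases hx : x ∈ Metric.closedBall (0 : X) n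
  · rw [indicator_of_mem hx]; exact min_le_left _ _
  · rw [indicator_of_notMem hx]; exact h0 x

lemma trunc_bc {ρ : X → ℝ} (hm : Measurable ρ) (h0 : ∀ x, 0 ≤ ρ x) (n : ℕ) : BC (trunc ρ n) := by
  refine ⟨(hm.min measurable_const).indicator Metric.isClosed_closedBall.measurableSet,
    ⟨n, Nat.cast_nonneg n, fun x => ?_⟩, ⟨n + 1, by positivity, fun x hx => ?_⟩⟩
  · rw [abs_of_nonneg (trunc_nonneg h0 n x)]
    unfold trunc
    by_cases hx : x ∈ Metric.closedBall (0 : X) n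
    · rw [indicator_of_mem hx]; exact min_le_right _ _
    · rw [indicator_of_notMem hx]; exact Nat.cast_nonneg n
  · unfold trunc
    rw [indicator_of_notMem]
    rw [Metric.mem_closedBall, dist_zero_right]; linarith

lemma trunc_tendsto (ρ : X → ℝ) (x : X) : Tendsto (fun n => trunc ρ n x) atTop (𝓝 (ρ x)) := by
  obtain ⟨N, hN⟩ := exists_nat_ge (max ‖x‖ (ρ x))
  refine tendsto_const_nhds.congr' ?_
  filter_upwards [eventually_ge_atTop N] with n hn
  have h1 : (N : ℝ) ≤ n := by exact_mod_cast hn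
  unfold trunc
  rw [indicator_of_mem, min_eq_left]
  · exact (le_max_right _ _).trans (hN.trans h1)
  · rw [Metric.mem_closedBall, dist_zero_right]
    exact (le_max_left _ _).trans (hN.trans h1)

lemma trunc_integral {ρ f : X → ℝ} (hm : Measurable ρ) (h0 : ∀ x, 0 ≤ ρ x) (hi : Integrable ρ)
    (hf : Measurable f) {M : ℝ} (hM : ∀ x, |f x| ≤ M) :
    Tendsto (fun n => ∫ x, f x * trunc ρ n x) atTop (𝓝 (∫ x, f x * ρ x)) := by
  apply tendsto_integral_of_dominated_convergence (fun x => M * ρ x)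
  · intro n
    exact (hf.mul (trunc_bc hm h0 n).meas).aestronglyMeasurable
  · exact hi.const_mul M
  · intro n
    refine ae_of_all _ fun x => ?_
    rw [Real.norm_eq_abs, abs_mul, abs_of_nonneg (trunc_nonneg h0 n x)]
    exact mul_le_mul (hM x) (trunc_le h0 n x) (trunc_nonneg h0 n x) ((abs_nonneg _).trans (hM x))
  · exact ae_of_all _ fun x => (trunc_tendsto ρ x).const_mul (f x)

lemma Dself_trunc {ρ : X → ℝ} (hm : Measurable ρ) (h0 : ∀ x, 0 ≤ ρ x) (hi : Integrable ρ)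
    (h53 : Integrable (fun x => ρ x ^ (5 / 3 : ℝ))) (n : ℕ) : Dself (trunc ρ n) ≤ Dself ρ := by
  unfold Dself
  refine mul_le_mul_of_nonneg_left ?_ (by norm_num)
  have hb := trunc_bc hm h0 n
  apply integral_mono (hb.prod hb).integral_prod_left
    (coulomb_integrable hm h0 hi h53).integral_prod_left
  intro x
  simp only
  rw [inner_pot, inner_pot]
  have h1 : ∫ y, trunc ρ n y / ‖x - y‖ ≤ ∫ y, ρ y / ‖x - y‖ := by
    apply integral_mono (hb.pot x) (V_integrable' hm h0 hi h53 x)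
    intro y
    exact div_le_div_of_nonneg_right (trunc_le h0 n y) (norm_nonneg _)
  exact mul_le_mul (trunc_le h0 n x) h1
    (integral_nonneg fun y => div_nonneg (trunc_nonneg h0 n y) (norm_nonneg _)) (h0 x)

/-- Coulomb part of weak duality -/
lemma coul_adm {ν V ρ φ : X → ℝ} {Z : ℝ} (hF : Fld ν V) (hρ : Adm Z ρ) (hφ : Test φ) :
    (∫ x, φ x * ν x) - (∫ x, φ x * ρ x) ≤
      Dir φ + Dself ρ - (∫ x, V x * ρ x) + (1 / 2) * ∫ x, V x * ν x := by
  obtain ⟨hm, h0, hi, h53, -⟩ := hρ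
  obtain ⟨Mφ, hMφ0, hMφ⟩ := hφ.bdd
  obtain ⟨MV, hMV0, hMV⟩ := hF.bdd
  have t1 := trunc_integral hm h0 hi hφ.cont.measurable hMφ
  have t2 := trunc_integral hm h0 hi hF.wc.measurable hMV
  have l1 : Tendsto (fun n => (∫ x, φ x * ν x) - (∫ x, φ x * trunc ρ n x) + ∫ x, V x * trunc ρ n x)
      atTop (𝓝 ((∫ x, φ x * ν x) - (∫ x, φ x * ρ x) + ∫ x, V x * ρ x)) :=
    (tendsto_const_nhds.sub t1).add t2
  have := le_of_tendsto' l1 (b := Dir φ + Dself ρ + (1 / 2) * ∫ x, V x * ν x) (fun n => by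
    have h1 := coul_bc hF (trunc_bc hm h0 n) (trunc_nonneg h0 n) hφ
    have h2 := Dself_trunc hm h0 hi h53 n
    linarith)
  linarith

/-- Young's inequality with the Thomas-Fermi constants -/
lemma young_tf {γ : ℝ} (hγ : 0 < γ) {r t : ℝ} (hr : 0 ≤ r) :
    t * r ≤ (3 / 5) * γ * r ^ (5 / 3 : ℝ) + (2 / 5) * γ ^ (-(3 / 2) : ℝ) * (max t 0) ^ (5 / 2 : ℝ) := by
  have hg : 0 < γ ^ (3 / 5 : ℝ) := Real.rpow_pos_of_pos hγ _
  have hg' : 0 < γ ^ (-(3 / 5) : ℝ) := Real.rpow_pos_of_pos hγ _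
  have h := Real.young_inequality_of_nonneg (a := γ ^ (3 / 5 : ℝ) * r)
    (b := γ ^ (-(3 / 5) : ℝ) * max t 0) (p := 5 / 3) (q := 5 / 2)
    (by positivity) (by positivity) (by constructor <;> norm_num)
  have e1 : γ ^ (3 / 5 : ℝ) * r * (γ ^ (-(3 / 5) : ℝ) * max t 0) = r * max t 0 := by
    have : γ ^ (3 / 5 : ℝ) * γ ^ (-(3 / 5) : ℝ) = 1 := by
      rw [← Real.rpow_add hγ]; norm_num
    calc _ = (γ ^ (3 / 5 : ℝ) * γ ^ (-(3 / 5) : ℝ)) * (r * max t 0) := by ring
      _ = _ := by rw [this, one_mul]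
  rw [e1, Real.mul_rpow hg.le hr, Real.mul_rpow hg'.le (le_max_right _ _), ← Real.rpow_mul hγ.le,
    ← Real.rpow_mul hγ.le] at h
  norm_num at h
  have h2 : t * r ≤ r * max t 0 := by
    rw [mul_comm]; exact mul_le_mul_of_nonneg_left (le_max_left _ _) hr
  have e3 : (-(3 / 2) : ℝ) = -3 / 2 := by norm_num
  linarith

/-- **Weak duality.** -/
theorem weak_duality {γ : ℝ} (hγ : 0 < γ) {ν V ρ φ : X → ℝ} {Z : ℝ} (hF : Fld ν V)
    (hρ : Adm Z ρ) (hφ : Test φ) :
    J (γ ^ (-(3 / 2) : ℝ)) ν φ ≤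
      (3 / 5) * γ * (∫ x, ρ x ^ (5 / 3 : ℝ)) - (∫ x, V x * ρ x) + Dself ρ +
        (1 / 2) * ∫ x, V x * ν x := by
  have h1 := coul_adm hF hρ hφ
  obtain ⟨hm, h0, hi, h53, -⟩ := hρ
  obtain ⟨Mφ, hMφ0, hMφ⟩ := hφ.bdd
  have i1 : Integrable (fun x => φ x * ρ x) := by
    refine (hi.const_mul Mφ).mono' (hφ.cont.measurable.mul hm).aestronglyMeasurable
      (ae_of_all _ fun x => ?_)
    rw [Real.norm_eq_abs, abs_mul, abs_of_nonneg (h0 x)]
    exact mul_le_mul_of_nonneg_right (hMφ x) (h0 x)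
  have i2 : Integrable (fun x => (max (φ x) 0) ^ (5 / 2 : ℝ)) := by
    have hc : Continuous (fun x => (max (φ x) 0) ^ (5 / 2 : ℝ)) :=
      (hφ.cont.max continuous_const).rpow_const (fun x => Or.inr (by norm_num))
    apply hc.integrable_of_hasCompactSupport
    exact hφ.2.comp_left (g := fun t => (max t 0) ^ (5 / 2 : ℝ)) (by
      rw [max_self, Real.zero_rpow (by norm_num)])
  have h2 : ∫ x, φ x * ρ x ≤ ∫ x, ((3 / 5) * γ * ρ x ^ (5 / 3 : ℝ) +
      (2 / 5) * γ ^ (-(3 / 2) : ℝ) * (max (φ x) 0) ^ (5 / 2 : ℝ)) := by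
    apply integral_mono i1 ((h53.const_mul _).add (i2.const_mul _))
    intro x
    exact young_tf hγ (h0 x)
  rw [integral_add (h53.const_mul _) (i2.const_mul _), integral_const_mul, integral_const_mul] at h2
  unfold J Pot
  linarith

/-! ### The smeared nuclei -/

theorem fld_nuclei {ι : Type} [Fintype ι] (z : ι → ℝ) (R : ι → X) {δ : ℝ} (hδ : 0 < δ) :
    Fld (nuS z R δ) (VS z R δ) :=
  Fld.sum Finset.univ (fun i => ((fldE hδ).shift (R i)).const_mul (z i))

lemma pair_diag {δ : ℝ} (a : X) :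
    ∫ x, vE δ (x - a) * mE δ (x - a) = ∫ x, vE δ x * mE δ x :=
  integral_sub_right_eq_self (fun x => vE δ x * mE δ x) a

lemma pair_off {δ : ℝ} (hδ : 0 < δ) {a b : X} (hab : 2 * δ ≤ ‖a - b‖) :
    ∫ x, vE δ (x - a) * mE δ (x - b) = ‖a - b‖⁻¹ := by
  have h1 : ∫ x, vE δ (x - a) * mE δ (x - b) = ∫ x, mE δ (x - b) / ‖a - x‖ := by
    refine integral_congr_ae (ae_of_all _ fun x => ?_)
    simp only
    by_cases hx : δ ≤ ‖x - b‖
    · rw [mE_supp hδ hx]; simp
    · rw [not_le] at hx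
      have h2 : δ ≤ ‖x - a‖ := by
        have h3 : ‖a - b‖ ≤ ‖x - a‖ + ‖x - b‖ := by
          have := norm_sub_le (x - b) (x - a)
          rw [show x - b - (x - a) = a - b by abel] at this
          linarith
        linarith
      rw [vE_eq hδ h2, norm_sub_rev a x, div_eq_inv_mul]
  rw [h1]
  have h2 := ((fldE hδ).shift b).newton a
  rw [h2, vE_eq hδ (by linarith)]

/-- electrostatic energy of the smeared nuclei -/
theorem nuclei_energy {ι : Type} [Fintype ι] (z : ι → ℝ) (R : ι → X) {δ : ℝ} (hδ : 0 < δ)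
    (hR : ∀ i j, i ≠ j → 2 * δ ≤ ‖R i - R j‖) :
    (1 / 2) * ∫ x, VS z R δ x * nuS z R δ x = Urep z R + selfE z δ := by
  classical
  obtain ⟨M, hM0, hM⟩ := (fldE hδ).bdd
  have hint : ∀ i j, Integrable (fun x => z i * z j * (vE δ (x - R i) * mE δ (x - R j))) := by
    intro i j
    exact (((fldE hδ).shift (R j)).bc.fint ((vE_cont hδ).measurable.comp (measurable_id.sub_const _))
      (fun x => hM _)).const_mul _
  have h1 : ∫ x, VS z R δ x * nuS z R δ x =
      ∑ i, ∑ j, z i * z j * ∫ x, vE δ (x - R i) * mE δ (x - R j) := by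
    have e1 : ∀ x, VS z R δ x * nuS z R δ x =
        ∑ i, ∑ j, z i * z j * (vE δ (x - R i) * mE δ (x - R j)) := by
      intro x
      unfold VS nuS
      rw [Finset.sum_mul_sum]
      refine Finset.sum_congr rfl fun i _ => Finset.sum_congr rfl fun j _ => ?_
      ring
    simp_rw [e1]
    rw [integral_finsetSum _ fun i _ => integrable_finsetSum _ fun j _ => hint i j]
    refine Finset.sum_congr rfl fun i _ => ?_
    rw [integral_finsetSum _ fun j _ => hint i j]
    refine Finset.sum_congr rfl fun j _ => ?_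
    rw [integral_const_mul]
  have h2 : ∀ i j, z i * z j * ∫ x, vE δ (x - R i) * mE δ (x - R j) =
      (if i = j then 0 else z i * z j / ‖R i - R j‖) +
        if i = j then z i ^ 2 * ∫ x, vE δ x * mE δ x else 0 := by
    intro i j
    by_cases hij : i = j
    · subst hij
      rw [if_pos rfl, if_pos rfl, pair_diag]; ring
    · rw [if_neg hij, if_neg hij, pair_off hδ (hR i j hij), div_eq_mul_inv, add_zero]
  rw [h1]
  simp_rw [h2, Finset.sum_add_distrib]
  unfold Urep selfE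
  simp only [Finset.sum_ite_eq, Finset.mem_univ, if_true]
  rw [← Finset.sum_mul]
  have e5 : (∑ i, ∑ j, if i = j then (0 : ℝ) else z i * z j / ‖R i - R j‖) =
      ∑ i, ∑ j, open Classical in if i = j then (0 : ℝ) else z i * z j / ‖R i - R j‖ := by
    refine Finset.sum_congr rfl fun i _ => Finset.sum_congr rfl fun j _ => ?_
    split_ifs <;> rfl
  rw [e5]
  ring

lemma Test.zero : Test (fun _ => 0) := ⟨⟨0, LipschitzWith.const 0⟩, HasCompactSupport.zero⟩

lemma VS_nonneg {ι : Type} [Fintype ι] {z : ι → ℝ} (hz : ∀ i, 0 ≤ z i) (R : ι → X) {δ : ℝ}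
    (hδ : 0 < δ) (x : X) : 0 ≤ VS z R δ x :=
  Finset.sum_nonneg fun i _ => mul_nonneg (hz i) (vE_pos hδ _).le

lemma VS_le {ι : Type} [Fintype ι] {z : ι → ℝ} (hz : ∀ i, 0 ≤ z i) (R : ι → X) {δ : ℝ}
    (hδ : 0 < δ) {x : X} (hx : ∀ i, x ≠ R i) : VS z R δ x ≤ Vp z R x := by
  unfold VS Vp
  refine Finset.sum_le_sum fun i _ => ?_
  rw [div_eq_mul_inv]
  exact mul_le_mul_of_nonneg_left (vE_le hδ (sub_ne_zero.2 (hx i))) (hz i)

lemma ae_ne_all {ι : Type} [Fintype ι] (R : ι → X) : ∀ᵐ x : X, ∀ i, x ≠ R i := by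
  rw [ae_all_iff]
  intro i
  simp [ae_iff, measure_singleton]

lemma Vp_integrable {ι : Type} [Fintype ι] (z : ι → ℝ) (R : ι → X) {Z : ℝ} {ρ : X → ℝ}
    (hρ : Adm Z ρ) : Integrable (fun x => Vp z R x * ρ x) := by
  obtain ⟨hm, h0, hi, h53, -⟩ := hρ
  have : (fun x => Vp z R x * ρ x) = fun x => ∑ i, z i * (ρ x / ‖x - R i‖) := by
    funext x
    unfold Vp
    rw [Finset.sum_mul]
    exact Finset.sum_congr rfl fun i _ => by ring
  rw [this]
  exact integrable_finsetSum _ fun i _ => (V_integrable hm h0 hi h53 (R i)).const_mul _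

lemma VS_tendsto {ι : Type} [Fintype ι] {z : ι → ℝ} (hz : ∀ i, 0 ≤ z i) (R : ι → X) {Z : ℝ}
    {ρ : X → ℝ} (hρ : Adm Z ρ) :
    Tendsto (fun δ => ∫ x, VS z R δ x * ρ x) (𝓝[>] 0) (𝓝 (∫ x, Vp z R x * ρ x)) := by
  have hρ' := hρ
  obtain ⟨hm, h0, hi, h53, -⟩ := hρ'
  apply tendsto_integral_filter_of_dominated_convergence (fun x => Vp z R x * ρ x)
  · filter_upwards [self_mem_nhdsWithin] with δ hδ
    have hδ' : 0 < δ := hδ
    exact ((fld_nuclei z R hδ').wc.measurable.mul hm).aestronglyMeasurable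
  · filter_upwards [self_mem_nhdsWithin] with δ hδ
    have hδ' : 0 < δ := hδ
    filter_upwards [ae_ne_all R] with x hx
    rw [Real.norm_of_nonneg (mul_nonneg (VS_nonneg hz R hδ' x) (h0 x))]
    exact mul_le_mul_of_nonneg_right (VS_le hz R hδ' hx) (h0 x)
  · exact Vp_integrable z R hρ
  · filter_upwards [ae_ne_all R] with x hx
    refine Tendsto.mul_const _ ?_
    unfold VS Vp
    refine tendsto_finsetSum _ fun i _ => ?_
    rw [div_eq_mul_inv]
    refine Tendsto.const_mul _ ?_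
    have hpos : 0 < ‖x - R i‖ := norm_pos_iff.2 (sub_ne_zero.2 (hx i))
    refine tendsto_const_nhds.congr' ?_
    have : Set.Ioo (0 : ℝ) ‖x - R i‖ ∈ 𝓝[>] (0 : ℝ) := Ioo_mem_nhdsGT hpos
    filter_upwards [this] with δ hδ
    exact (vE_eq hδ.1 hδ.2.le).symm

lemma exists_min_dist {ι : Type} [Fintype ι] {R : ι → X} (hR : Function.Injective R) :
    ∃ d : ℝ, 0 < d ∧ ∀ i j, i ≠ j → d ≤ ‖R i - R j‖ := by
  classical
  let S : Finset ℝ := insert 1 ((Finset.univ : Finset (ι × ι)).filter (fun p => p.1 ≠ p.2) |>.image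
    (fun p => ‖R p.1 - R p.2‖))
  have hS : S.Nonempty := ⟨1, by simp [S]⟩
  refine ⟨S.min' hS, ?_, ?_⟩
  · rw [Finset.lt_min'_iff]
    intro y hy
    simp only [S, Finset.mem_insert, Finset.mem_image, Finset.mem_filter, Finset.mem_univ,
      true_and] at hy
    rcases hy with rfl | ⟨p, hp, rfl⟩
    · norm_num
    · exact norm_pos_iff.2 (sub_ne_zero.2 (fun h => hp (hR h)))
  · intro i j hij
    apply Finset.min'_le
    simp only [S, Finset.mem_insert, Finset.mem_image, Finset.mem_filter, Finset.mem_univ,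
      true_and]
    exact Or.inr ⟨(i, j), hij, rfl⟩

/-- the dual problem of the smeared nuclei is asymptotically below the energy -/
theorem T_upper {ι : Type} [Fintype ι] {γ : ℝ} (hγ : 0 < γ) {z : ι → ℝ} (hz : ∀ i, 0 ≤ z i)
    {R : ι → X} (hR : Function.Injective R) {η : ℝ} (hη : 0 < η) :
    ∃ δ₀ : ℝ, 0 < δ₀ ∧ ∀ δ, 0 < δ → δ < δ₀ →
      T (γ ^ (-(3 / 2) : ℝ)) (nuS z R δ) - selfE z δ ≤ TFE γ z R + η := by
  obtain ⟨d, hd, hdist⟩ := exists_min_dist hR
  obtain ⟨_, ⟨ρ, hρ, rfl⟩, hρE⟩ := exists_lt_of_csInf_lt (energySet_nonempty γ z hz R)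
    (show TFE γ z R < TFE γ z R + η / 2 by linarith)
  have ht := VS_tendsto hz R hρ
  have hev : ∀ᶠ δ in 𝓝[>] (0 : ℝ), (∫ x, Vp z R x * ρ x) - η / 2 < ∫ x, VS z R δ x * ρ x :=
    ht.eventually (lt_mem_nhds (by linarith))
  obtain ⟨δ₁, hδ₁', hsub⟩ := mem_nhdsGT_iff_exists_Ioo_subset.1 hev
  have hδ₁ : (0 : ℝ) < δ₁ := hδ₁'
  refine ⟨min δ₁ (d / 2), lt_min hδ₁ (by positivity), fun δ hδ hδ' => ?_⟩
  have hmem : δ ∈ Set.Ioo (0 : ℝ) δ₁ := ⟨hδ, hδ'.trans_le (min_le_left _ _)⟩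
  have h1 : (∫ x, Vp z R x * ρ x) - η / 2 < ∫ x, VS z R δ x * ρ x := hsub hmem
  have h2 : ∀ i j, i ≠ j → 2 * δ ≤ ‖R i - R j‖ := by
    intro i j hij
    have h3 := hdist i j hij
    have h4 : δ < d / 2 := hδ'.trans_le (min_le_right _ _)
    linarith
  have h3 := nuclei_energy z R hδ h2
  have h4 : T (γ ^ (-(3 / 2) : ℝ)) (nuS z R δ) ≤
      (3 / 5) * γ * (∫ x, ρ x ^ (5 / 3 : ℝ)) - (∫ x, VS z R δ x * ρ x) + Dself ρ +
        (1 / 2) * ∫ x, VS z R δ x * nuS z R δ x := by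
    have hne : {t | ∃ φ, Test φ ∧ t = J (γ ^ (-(3 / 2) : ℝ)) (nuS z R δ) φ}.Nonempty :=
      ⟨J (γ ^ (-(3 / 2) : ℝ)) (nuS z R δ) (fun _ => 0), fun _ => 0, Test.zero, rfl⟩
    unfold T
    apply csSup_le hne
    rintro t ⟨φ, hφ, rfl⟩
    exact weak_duality hγ (fld_nuclei z R hδ) hρ hφ
  rw [h3] at h4
  unfold energy at hρE
  linarith

end

end Pool.Agent.Helper96.TF
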